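import Pool.Agent.H51.EM.Targets

/-!
# Board em_modules (MP_58ae59_nt), module NFIN: the final asymptotic inequality

A copy of `Pool/Agent/H70/EI/NFIN.lean` with `K` at most `10⁻⁹ J²`.
-/

set_option autoImplicit false

open Polynomial Finset

namespace Pool.Agent.H34.EM.NFIN

open Pool.Agent.H51.EM

open Pool.Agent.H25.EE (VJ phi bN bH)

private lemma phi_VJ (ε s : ℝ) (J : ℕ) (hL : Real.log (J : ℝ) ≠ 0) :
    phi ε J (s * VJ J) =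
      (8 / 1265625 * (s - s ^ 2 / 2) - ε) * ((J : ℝ) ^ 8 * Real.log J) := by
  unfold phi VJ
  field_simp
  ring

theorem pf_NFIN : T_NFIN := by
  intro c hc
  obtain ⟨M, hM⟩ : ∃ M : ℝ, M = max c 1 := ⟨_, rfl⟩
  have hcM : c ≤ M := by rw [hM]; exact le_max_left _ _
  have hM1 : 1 ≤ M := by rw [hM]; exact le_max_right _ _
  obtain ⟨Jb, hJb⟩ := exists_nat_ge ((10 : ℝ) ^ 9 * (10 * M))
  refine ⟨max Jb 3, fun J hJ K N J1 hK hN hJ1 => ?_⟩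
  have hJb' : (10 : ℝ) ^ 9 * (10 * M) ≤ J :=
    hJb.trans (by exact_mod_cast (le_max_left _ _).trans hJ)
  have hx1 : (10 : ℝ) ^ 9 ≤ J := by nlinarith
  obtain ⟨x, hx⟩ : ∃ x : ℝ, x = (J : ℝ) := ⟨_, rfl⟩
  obtain ⟨L, hL⟩ : ∃ L : ℝ, L = Real.log x := ⟨_, rfl⟩
  have hx0 : (0 : ℝ) < x := by rw [hx]; linarith
  have hL1 : 1 ≤ L := by
    rw [hL, Real.le_log_iff_exp_le hx0]
    have := Real.exp_one_lt_d9
    rw [hx]
    linarith
  have hLne : Real.log (J : ℝ) ≠ 0 := by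
    rw [← hx, ← hL]
    positivity
  rw [phi_VJ _ _ _ hLne, phi_VJ _ _ _ hLne, ← hx, ← hL]
  rw [← hx] at hJb' hx1 hJ1 hK
  have hbN : bN J = 2849 / 2000000 * x ^ 6 := by rw [bN, hx]
  have hbH : bH J = 2279 / 2000000000 * x ^ 6 * L := by rw [bH, hL, hx]
  rw [hbN] at hN
  rw [hbN, hbH]
  have hx6 : (0 : ℝ) < x ^ 6 := by positivity
  have hx61 : (1 : ℝ) ≤ x ^ 6 := one_le_pow₀ (by linarith)
  have hN0 : (0 : ℝ) ≤ N := Nat.cast_nonneg N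
  have hN1 : (N : ℝ) ≤ M * x ^ 6 := by
    calc (N : ℝ) ≤ c * (2849 / 2000000 * x ^ 6) := hN
      _ ≤ M * (2849 / 2000000 * x ^ 6) := by gcongr
      _ ≤ M * x ^ 6 := by
        gcongr
        linarith
  have hlog : Real.log (8 * ((N : ℝ) + 1)) ≤ 7 * L := by
    rw [hL]
    have h1 : (7 : ℝ) * Real.log x = Real.log (x ^ 7) := by
      rw [Real.log_pow]
      norm_num
    rw [h1]
    refine Real.log_le_log (by positivity) ?_
    calc 8 * ((N : ℝ) + 1) ≤ 16 * M * x ^ 6 := by nlinarith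
      _ ≤ x * x ^ 6 := by
        gcongr
        linarith
      _ = x ^ 7 := by ring
  have hlog0 : 0 ≤ Real.log (8 * ((N : ℝ) + 1)) := Real.log_nonneg (by linarith)
  have hq1 : (N : ℝ) * Real.log (8 * ((N : ℝ) + 1)) ≤ 7 * M * (x ^ 6 * L) := by
    calc (N : ℝ) * Real.log (8 * ((N : ℝ) + 1)) ≤ M * x ^ 6 * (7 * L) :=
          mul_le_mul hN1 hlog hlog0 (by positivity)
      _ = 7 * M * (x ^ 6 * L) := by ring
  have hq2 : K * x ^ 6 ≤ 1 / 10 ^ 9 * (x ^ 8 * L) := by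
    calc K * x ^ 6 ≤ (1 / 10 ^ 9 * x ^ 2) * x ^ 6 := by gcongr
      _ = 1 / 10 ^ 9 * (x ^ 8 * 1) := by ring
      _ ≤ 1 / 10 ^ 9 * (x ^ 8 * L) := by gcongr
  have hJ10 : (0 : ℝ) ≤ J1 := Nat.cast_nonneg J1
  have hq3 : 3 / 20000 * (J1 : ℝ) ^ 2 * x ^ 6 * L ≤ 3 / 200000000 * (x ^ 8 * L) := by
    have h1 : (J1 : ℝ) ≤ x / 100 := by linarith
    calc 3 / 20000 * (J1 : ℝ) ^ 2 * x ^ 6 * L ≤ 3 / 20000 * (x / 100) ^ 2 * x ^ 6 * L := by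
          gcongr
      _ = 3 / 200000000 * (x ^ 8 * L) := by ring
  have hq4 : 7 * M * (x ^ 6 * L) ≤ 9 / 10 ^ 9 * (x ^ 8 * L) := by
    have h1 : 7 * M ≤ 9 / 10 ^ 9 * x := by linarith
    calc 7 * M * (x ^ 6 * L) ≤ (9 / 10 ^ 9 * x) * (x ^ 6 * L) := by gcongr
      _ = 9 / 10 ^ 9 * (x ^ 7 * L) * 1 := by ring
      _ ≤ 9 / 10 ^ 9 * (x ^ 7 * L) * x := by
        gcongr
        linarith
      _ = 9 / 10 ^ 9 * (x ^ 8 * L) := by ring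
  obtain ⟨q1, hq1'⟩ : ∃ q1, q1 = (N : ℝ) * Real.log (8 * ((N : ℝ) + 1)) := ⟨_, rfl⟩
  obtain ⟨P, hP⟩ : ∃ P, P = x ^ 8 * L := ⟨_, rfl⟩
  have hP0 : 0 < P := by rw [hP]; positivity
  rw [← hq1'] at hq1 ⊢
  rw [← hP] at hq2 hq3 hq4 ⊢
  have e1 : 101 / 100 * (2 * (2849 / 2000000 * x ^ 6) * (2279 / 2000000000 * x ^ 6 * L)) =
      2 / 1125 * x ^ 4 * (1125 / 2 * (101 / 100 * (2 * (2849 / 2000000) *
        (2279 / 2000000000))) * P) := by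
    rw [hP]
    ring
  rw [e1]
  refine mul_lt_mul_of_pos_left ?_ (by positivity)
  nlinarith
end Pool.Agent.H34.EM.NFIN
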